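import Mathlib

set_option autoImplicit false

namespace Q116.Susp

/-- Vertices of the host graph: `Bool × Fin q × Fin k` (side, block, position), together with `r`
further vertices on the side `false`. -/
abbrev HV (q k r : ℕ) : Type := (Bool × Fin q × Fin k) ⊕ Fin r

variable {q k r : ℕ}

/-- The side of a vertex. -/
def side : HV q k r → Bool
  | Sum.inl p => p.1
  | Sum.inr _ => false

/-- Two distinct vertices in the same block of the same side. -/
def same : HV q k r → HV q k r → Prop
  | Sum.inl p, Sum.inl p' => p.1 = p'.1 ∧ p.2.1 = p'.2.1 ∧ p.2.2 ≠ p'.2.2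
  | _, _ => False

/-- The host graph: complete bipartite between the two sides, plus disjoint `K_k`s in both. -/
def host (q k r : ℕ) : SimpleGraph (HV q k r) where
  Adj u v := side u ≠ side v ∨ same u v
  symm := ⟨fun u v h => by
    rcases h with h | h
    · exact Or.inl h.symm
    · right
      rcases u with (a | p) <;> rcases v with (b | p') <;> simp only [same] at h ⊢
      exact ⟨h.1.symm, h.2.1.symm, h.2.2.symm⟩⟩
  loopless := ⟨fun u h => by
    rcases h with h | h
    · exact h rfl
    · rcases u with (a | p) <;> simp only [same] at h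
      exact h.2.2 rfl⟩

theorem same_side {u v : HV q k r} (h : same u v) : side u = side v := by
  rcases u with (a | p) <;> rcases v with (b | p') <;> simp only [same] at h
  exact h.1

theorem same_ncard (u : HV q k r) : {v | same u v}.ncard ≤ k - 1 := by
  rcases u with (⟨s, i, x⟩ | z)
  · have h : {v : HV q k r | same (Sum.inl (s, i, x)) v} ⊆
        (fun y : Fin k => (Sum.inl (s, i, y) : HV q k r)) '' {y | y ≠ x} := by
      rintro (⟨s', i', y⟩ | z) hv
      · simp only [same, Set.mem_ofPred_eq] at hv
        obtain ⟨rfl, rfl, h3⟩ := hv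
        exact ⟨y, h3.symm, rfl⟩
      · simp only [same, Set.mem_ofPred_eq] at hv
    refine (Set.ncard_le_ncard h (Set.toFinite _)).trans ((Set.ncard_image_le (Set.toFinite _)).trans ?_)
    have h2 : {y : Fin k | y ≠ x} = ((Finset.univ.erase x : Finset (Fin k)) : Set (Fin k)) := by
      ext y; simp
    rw [h2, Set.ncard_coe_finset, Finset.card_erase_of_mem (Finset.mem_univ _)]
    simp
  · have h : {v : HV q k r | same (Sum.inr z) v} = ∅ := by
      ext v
      rcases v with (v | v) <;> simp [same]
    rw [h]; simp

/-- Neighbours on the own side. -/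
theorem ownside (u : HV q k r) : {v | (host q k r).Adj u v ∧ side u = side v}.ncard ≤ k - 1 := by
  refine (Set.ncard_le_ncard ?_ (Set.toFinite _)).trans (same_ncard u)
  rintro v ⟨h1 | h1, h2⟩
  · exact absurd h2 h1
  · exact h1

/-- Common neighbours of two vertices on different sides. -/
theorem common (u v : HV q k r) (h : side u ≠ side v) :
    {w | (host q k r).Adj u w ∧ (host q k r).Adj v w}.ncard ≤ 2 * (k - 1) := by
  have h1 : {w | (host q k r).Adj u w ∧ (host q k r).Adj v w} ⊆ {w | same u w} ∪ {w | same v w} := by
    rintro w ⟨h2, h3⟩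
    rcases h2 with h2 | h2
    · rcases h3 with h3 | h3
      · exfalso
        revert h h2 h3
        cases side u <;> cases side v <;> cases side w <;> simp
      · exact Or.inr h3
    · exact Or.inl h2
  have h2 := Set.ncard_le_ncard h1 (Set.toFinite _)
  have h3 := Set.ncard_union_le {w | same u w} {w | same v w}
  have h4 := same_ncard u
  have h5 := same_ncard v
  omega

/-- Indicator of adjacency. -/
def hind : HV q k r → HV q k r → ℕ
  | Sum.inl (s, i, x), Sum.inl (s', i', x') =>
      if s = s' then (if i = i' then (if x = x' then 0 else 1) else 0) else 1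
  | Sum.inl (s, _, _), Sum.inr _ => if s = true then 1 else 0
  | Sum.inr _, Sum.inl (s, _, _) => if s = true then 1 else 0
  | Sum.inr _, Sum.inr _ => 0

theorem hind_pos (u v : HV q k r) (h : (host q k r).Adj u v) : hind u v = 1 := by
  rcases u with (⟨s, i, x⟩ | z) <;> rcases v with (⟨s', i', x'⟩ | z') <;>
    simp only [host, same, side, hind] at h ⊢
  · rcases h with h | ⟨h1, h2, h3⟩
    · rw [if_neg h]
    · rw [if_pos h1, if_pos h2, if_neg h3]
  · cases s <;> simp_all
  · cases s' <;> simp_all
  · simp at h

theorem hind_neg (u v : HV q k r) (h : ¬ (host q k r).Adj u v) : hind u v = 0 := by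
  rcases u with (⟨s, i, x⟩ | z) <;> rcases v with (⟨s', i', x'⟩ | z') <;>
    simp only [host, same, side, hind] at h ⊢
  · by_cases h1 : s = s'
    · by_cases h2 : i = i'
      · by_cases h3 : x = x'
        · rw [if_pos h1, if_pos h2, if_pos h3]
        · exact absurd (Or.inr ⟨h1, h2, h3⟩) h
      · rw [if_pos h1, if_neg h2]
    · exact absurd (Or.inl h1) h
  · cases s <;> simp_all
  · cases s' <;> simp_all

theorem sum_false (i : Fin q) (x : Fin k) :
    ∑ v : HV q k r, hind (Sum.inl (false, i, x)) v = q * k + (k - 1) := by
  rw [Fintype.sum_sum_type, Fintype.sum_prod_type, Fintype.sum_bool, Fintype.sum_prod_type,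
    Fintype.sum_prod_type]
  have h1 : ∀ j : Fin q, ∑ y : Fin k, hind (Sum.inl (false, i, x) : HV q k r)
      (Sum.inl (false, j, y)) = if i = j then k - 1 else 0 := by
    intro j
    by_cases h : i = j
    · simp only [hind, h, if_true]
      have : ∀ y : Fin k, (if x = y then 0 else 1) = 1 - (if x = y then 1 else 0) := by
        intro y; split_ifs <;> rfl
      have h2 : (∑ y : Fin k, (if x = y then 0 else 1)) + 1 = k := by
        have : (∑ y : Fin k, (if x = y then 0 else 1)) + (∑ y : Fin k, (if x = y then 1 else 0)) =
            ∑ y : Fin k, 1 := by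
          rw [← Finset.sum_add_distrib]
          exact Finset.sum_congr rfl fun y _ => by split_ifs <;> rfl
        simpa using this
      omega
    · simp [hind, h]
  rw [Finset.sum_congr rfl (fun j _ => h1 j)]
  simp [hind]

theorem sum_true (i : Fin q) (x : Fin k) :
    ∑ v : HV q k r, hind (Sum.inl (true, i, x)) v = q * k + (k - 1) + r := by
  rw [Fintype.sum_sum_type, Fintype.sum_prod_type, Fintype.sum_bool, Fintype.sum_prod_type,
    Fintype.sum_prod_type]
  have h1 : ∀ j : Fin q, ∑ y : Fin k, hind (Sum.inl (true, i, x) : HV q k r)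
      (Sum.inl (true, j, y)) = if i = j then k - 1 else 0 := by
    intro j
    by_cases h : i = j
    · simp only [hind, h, if_true]
      have h2 : (∑ y : Fin k, (if x = y then 0 else 1)) + 1 = k := by
        have : (∑ y : Fin k, (if x = y then 0 else 1)) + (∑ y : Fin k, (if x = y then 1 else 0)) =
            ∑ y : Fin k, 1 := by
          rw [← Finset.sum_add_distrib]
          exact Finset.sum_congr rfl fun y _ => by split_ifs <;> rfl
        simpa using this
      omega
    · simp [hind, h]
  rw [Finset.sum_congr rfl (fun j _ => h1 j)]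
  simp [hind]
  ring

theorem sum_rest (z : Fin r) : ∑ v : HV q k r, hind (Sum.inr z) v = q * k := by
  rw [Fintype.sum_sum_type, Fintype.sum_prod_type, Fintype.sum_bool]
  simp [hind]

open scoped Classical

theorem host_degree (v : HV q k r) : (host q k r).degree v = ∑ u, hind v u := by
  rw [← SimpleGraph.card_neighborFinset_eq_degree, SimpleGraph.neighborFinset_eq_filter,
    Finset.card_filter]
  refine Finset.sum_congr rfl fun u _ => ?_
  by_cases h : (host q k r).Adj v u
  · rw [if_pos h, hind_pos v u h]
  · rw [if_neg h, hind_neg v u h]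

theorem host_card : 2 * (host q k r).edgeFinset.card =
    2 * (q * k) * (q * k + (k - 1)) + 2 * (q * k) * r := by
  have h := (host q k r).sum_degrees_eq_twice_card_edges
  rw [← h, Finset.sum_congr rfl (fun v _ => host_degree v), Fintype.sum_sum_type,
    Fintype.sum_prod_type, Fintype.sum_bool, Finset.sum_congr rfl (fun z _ => sum_rest z)]
  have h1 : ∀ p : Fin q × Fin k, ∑ v : HV q k r, hind (Sum.inl (true, p)) v =
      q * k + (k - 1) + r := fun p => sum_true p.1 p.2
  have h2 : ∀ p : Fin q × Fin k, ∑ v : HV q k r, hind (Sum.inl (false, p)) v =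
      q * k + (k - 1) := fun p => sum_false p.1 p.2
  rw [Finset.sum_congr rfl (fun p _ => h1 p), Finset.sum_congr rfl (fun p _ => h2 p)]
  simp only [Finset.sum_const, Finset.card_univ, Fintype.card_prod, Fintype.card_fin, smul_eq_mul]
  ring

theorem host_verts : Fintype.card (HV q k r) = 2 * (q * k) + r := by
  simp [HV]

end Q116.Susp
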