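import Mathlib

set_option autoImplicit false

namespace Q116.Susp

/-- Vertices of the spider-like tree: a root, `k` centres, and `m` leaves at each centre. -/
abbrev W (k m : ℕ) : Type := Unit ⊕ Fin k ⊕ (Fin k × Fin m)

variable {k m : ℕ}

/-- Adjacency: the root is joined to the centres and every centre to its leaves. -/
def wadj : W k m → W k m → Prop
  | Sum.inl _, Sum.inr (Sum.inl _) => True
  | Sum.inr (Sum.inl _), Sum.inl _ => True
  | Sum.inr (Sum.inl i), Sum.inr (Sum.inr p) => p.1 = i
  | Sum.inr (Sum.inr p), Sum.inr (Sum.inl i) => p.1 = i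
  | _, _ => False

/-- The tree with a root joined to `k` centres, each of which has `m` leaves. -/
def spider (k m : ℕ) : SimpleGraph (W k m) where
  Adj := wadj
  symm := ⟨fun x y h => by
    rcases x with (a | p | p) <;> rcases y with (b | q | q) <;> simp only [wadj] at h ⊢
    · exact h
    · exact h⟩
  loopless := ⟨fun x h => by
    rcases x with (a | p | p) <;> simp only [wadj] at h⟩

/-- Indicator of adjacency. -/
def ind : W k m → W k m → ℕ
  | Sum.inl _, Sum.inr (Sum.inl _) => 1
  | Sum.inr (Sum.inl _), Sum.inl _ => 1
  | Sum.inr (Sum.inl i), Sum.inr (Sum.inr p) => if p.1 = i then 1 else 0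
  | Sum.inr (Sum.inr p), Sum.inr (Sum.inl i) => if p.1 = i then 1 else 0
  | _, _ => 0

theorem ind_pos (u v : W k m) (h : wadj u v) : ind u v = 1 := by
  rcases u with (a | p | p) <;> rcases v with (b | q | q) <;> simp_all [wadj, ind]

theorem ind_neg (u v : W k m) (h : ¬ wadj u v) : ind u v = 0 := by
  rcases u with (a | p | p) <;> rcases v with (b | q | q) <;> simp_all [wadj, ind]

theorem sum_root : ∑ v : W k m, ind (Sum.inl ()) v = k := by
  simp [Fintype.sum_sum_type, Fintype.sum_prod_type, ind]

theorem sum_centre (i : Fin k) : ∑ v : W k m, ind (Sum.inr (Sum.inl i)) v = 1 + m := by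
  have h : ∑ x : Fin k, ∑ _y : Fin m, (if x = i then 1 else 0) = m := by
    simp
  rw [Fintype.sum_sum_type, Fintype.sum_sum_type, Fintype.sum_prod_type]
  change (∑ _ : Unit, 1) + ((∑ _ : Fin k, 0) +
    ∑ x : Fin k, ∑ _y : Fin m, (if x = i then 1 else 0)) = 1 + m
  rw [h]
  simp

theorem sum_leaf (p : Fin k × Fin m) : ∑ v : W k m, ind (Sum.inr (Sum.inr p)) v = 1 := by
  simp [Fintype.sum_sum_type, Fintype.sum_prod_type, ind]

open scoped Classical

theorem ind_eq (u v : W k m) : (if (spider k m).Adj u v then 1 else 0) = ind u v := by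
  by_cases h : (spider k m).Adj u v
  · rw [if_pos h, ind_pos u v h]
  · rw [if_neg h, ind_neg u v h]

theorem spider_connected : (spider k m).Connected := by
  have h : ∀ v : W k m, (spider k m).Reachable (Sum.inl ()) v := by
    have h1 : ∀ i, (spider k m).Reachable (Sum.inl ()) (Sum.inr (Sum.inl i)) := by
      intro i
      apply SimpleGraph.Adj.reachable
      simp [spider, wadj]
    rintro (a | i | p)
    · exact SimpleGraph.Reachable.refl _
    · exact h1 i
    · refine (h1 p.1).trans ?_
      apply SimpleGraph.Adj.reachable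
      simp [spider, wadj]
  refine (SimpleGraph.connected_iff _).2 ⟨fun u v => (h u).symm.trans (h v), ⟨Sum.inl ()⟩⟩

theorem spider_degree (v : W k m) : (spider k m).degree v = ∑ u, ind v u := by
  rw [← SimpleGraph.card_neighborFinset_eq_degree, SimpleGraph.neighborFinset_eq_filter,
    Finset.card_filter]
  exact Finset.sum_congr rfl fun u _ => ind_eq v u

theorem spider_card : (spider k m).edgeFinset.card = k + k * m := by
  have h := (spider k m).sum_degrees_eq_twice_card_edges
  have h2 : ∑ v, (spider k m).degree v = 2 * (k + k * m) := by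
    rw [Finset.sum_congr rfl (fun v _ => spider_degree v), Fintype.sum_sum_type,
      Fintype.sum_sum_type, Finset.sum_congr rfl (fun _ _ => sum_root),
      Finset.sum_congr rfl (fun i _ => sum_centre i),
      Finset.sum_congr rfl (fun p _ => sum_leaf p)]
    simp
    ring
  omega

theorem spider_tree : (spider k m).IsTree := by
  rw [SimpleGraph.isTree_iff_connected_and_card]
  refine ⟨spider_connected, ?_⟩
  rw [Nat.card_eq_fintype_card, Nat.card_eq_fintype_card, ← SimpleGraph.edgeFinset_card,
    spider_card]
  simp
  ring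

theorem spider_deg (i : Fin k) :
    ((spider k m).neighborSet (Sum.inr (Sum.inl i))).ncard = m + 1 := by
  have h3 : ((spider k m).neighborSet (Sum.inr (Sum.inl i))).ncard =
      (spider k m).degree (Sum.inr (Sum.inl i)) := by
    rw [← SimpleGraph.card_neighborFinset_eq_degree, SimpleGraph.neighborFinset,
      Set.ncard_eq_toFinset_card']
  rw [h3, spider_degree, sum_centre]
  ring

end Q116.Susp
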